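import Pool.Agent.Helper20.IIC.Stmts

/-! # Final assembly -/

namespace IIC

open Filter Topology Set MeasureTheory
open scoped BigOperators

variable {d : ℕ}

/-! ## Linear combinations -/

/-- Extension of a configuration on `F` by zero. -/
theorem fina_comb_UF (A : Set (Cfg d)) (hA : IsCyl A) :
    ∃ (s : Finset (Finset (Ed d))) (c : Finset (Ed d) → ℝ),
      ∀ ω, A.indicator (fun _ => (1 : ℝ)) ω =
        ∑ K ∈ s, c K * (UF K).indicator (fun _ => (1 : ℝ)) ω := by
  classical
  obtain ⟨F, hF⟩ := hA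
  -- atoms: the configurations equal to `η` on `F`
  have key : ∀ (G : Finset (Ed d)) (η : Cfg d), ∃ (s : Finset (Finset (Ed d)))
      (c : Finset (Ed d) → ℝ), ∀ ω : Cfg d,
        (if ∀ e ∈ G, ω e = η e then (1 : ℝ) else 0) =
          ∑ K ∈ s, c K * (UF K).indicator (fun _ => (1 : ℝ)) ω := by
    intro G η
    induction G using Finset.induction_on with
    | empty =>
      refine ⟨{∅}, fun _ => 1, fun ω => ?_⟩
      simp [UF]
    | insert e G he ih =>
      obtain ⟨s, c, hs⟩ := ih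
      have h1 : ∀ ω : Cfg d, (if ∀ e' ∈ insert e G, ω e' = η e' then (1 : ℝ) else 0) =
          (if ω e = η e then 1 else 0) * (if ∀ e' ∈ G, ω e' = η e' then (1 : ℝ) else 0) := by
        intro ω
        by_cases h2 : ω e = η e
        · by_cases h3 : ∀ e' ∈ G, ω e' = η e'
          · rw [if_pos, if_pos h2, if_pos h3, one_mul]
            intro e' he'
            rcases Finset.mem_insert.mp he' with rfl | h
            · exact h2
            · exact h3 e' h
          · rw [if_neg, if_neg h3, mul_zero]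
            intro h
            exact h3 fun e' he' => h e' (Finset.mem_insert_of_mem he')
        · rw [if_neg, if_neg h2, zero_mul]
          intro h
          exact h2 (h e (Finset.mem_insert_self _ _))
      have h4 : ∀ (K : Finset (Ed d)) (ω : Cfg d), (if ω e = true then (1 : ℝ) else 0) *
          (UF K).indicator (fun _ => (1 : ℝ)) ω =
          (UF (insert e K)).indicator (fun _ => (1 : ℝ)) ω := by
        intro K ω
        by_cases h5 : ω e = true
        · by_cases h6 : ω ∈ UF K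
          · have h7 : ω ∈ UF (insert e K) := by
              intro e' he'
              rcases Finset.mem_insert.mp he' with rfl | h
              · exact h5
              · exact h6 e' h
            rw [if_pos h5, indicator_of_mem h6, indicator_of_mem h7, one_mul]
          · have h7 : ω ∉ UF (insert e K) := fun h =>
              h6 fun e' he' => h e' (Finset.mem_insert_of_mem he')
            rw [indicator_of_notMem h6, indicator_of_notMem h7, mul_zero]
        · have h7 : ω ∉ UF (insert e K) := fun h => h5 (h e (Finset.mem_insert_self _ _))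
          rw [if_neg h5, indicator_of_notMem h7, zero_mul]
      -- the sum over the images
      have h8 : ∀ ω : Cfg d, (if ω e = true then (1 : ℝ) else 0) *
          ∑ K ∈ s, c K * (UF K).indicator (fun _ => (1 : ℝ)) ω =
          ∑ K' ∈ s.image (insert e), (∑ K ∈ s.filter (fun K => insert e K = K'), c K) *
            (UF K').indicator (fun _ => (1 : ℝ)) ω := by
        intro ω
        rw [Finset.mul_sum, ← Finset.sum_fiberwise_of_maps_to
          (g := fun K => insert e K) (t := s.image (insert e))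
          (fun K hK => Finset.mem_image_of_mem _ hK)]
        refine Finset.sum_congr rfl fun K' _ => ?_
        rw [Finset.sum_mul]
        refine Finset.sum_congr rfl fun K hK => ?_
        rw [← (Finset.mem_filter.mp hK).2, ← h4]
        ring
      by_cases hη : η e = true
      · refine ⟨s.image (insert e), fun K' => ∑ K ∈ s.filter (fun K => insert e K = K'), c K,
          fun ω => ?_⟩
        rw [h1, hs, ← h8, hη]
      · refine ⟨s ∪ s.image (insert e), fun K' => (if K' ∈ s then c K' else 0) -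
          (if K' ∈ s.image (insert e) then
            ∑ K ∈ s.filter (fun K => insert e K = K'), c K else 0), fun ω => ?_⟩
        have h9 : (if ω e = η e then (1 : ℝ) else 0) = 1 - (if ω e = true then (1 : ℝ) else 0) := by
          have : η e = false := by simpa using hη
          rw [this]
          cases ω e <;> simp
        rw [h1, hs, h9, sub_mul, one_mul, h8]
        simp only [sub_mul, Finset.sum_sub_distrib, ite_mul, zero_mul]
        rw [← Finset.sum_filter, ← Finset.sum_filter]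
        congr 1
        · refine Finset.sum_congr ?_ fun _ _ => rfl
          ext K
          simp only [Finset.mem_filter, Finset.mem_union]
          tauto
        · refine Finset.sum_congr ?_ fun _ _ => rfl
          ext K
          simp only [Finset.mem_filter, Finset.mem_union]
          tauto
  -- sum over the atoms
  have h0 : ∀ ω : Cfg d, A.indicator (fun _ => (1 : ℝ)) ω =
      ∑ G ∈ F.powerset, (if (fun e => decide (e ∈ G)) ∈ A then (1 : ℝ) else 0) *
        (if ∀ e ∈ F, ω e = decide (e ∈ G) then (1 : ℝ) else 0) := by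
    intro ω
    rw [Finset.sum_eq_single (F.filter fun e => ω e = true)]
    · have h1 : ∀ e ∈ F, ω e = decide (e ∈ F.filter fun e => ω e = true) := by
        intro e he
        by_cases h : ω e = true
        · rw [h]
          simp [he, h]
        · have h' : ω e = false := by simpa using h
          rw [h']
          simp [h']
      rw [if_pos h1, mul_one]
      have h2 := hF ω (fun e => decide (e ∈ F.filter fun e => ω e = true)) h1
      by_cases h3 : ω ∈ A
      · rw [indicator_of_mem h3, if_pos (h2.mp h3)]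
      · rw [indicator_of_notMem h3, if_neg fun h => h3 (h2.mpr h)]
    · intro G hG hne
      refine mul_eq_zero_of_right _ (if_neg ?_)
      intro h
      apply hne
      ext e
      constructor
      · intro he
        have := h e (Finset.mem_powerset.mp hG he)
        simp only [Finset.mem_filter]
        exact ⟨Finset.mem_powerset.mp hG he, by rw [this]; simpa using he⟩
      · intro he
        simp only [Finset.mem_filter] at he
        have := h e he.1
        rw [he.2] at this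
        simpa using this.symm
    · intro h
      exact absurd (Finset.mem_powerset.mpr (Finset.filter_subset _ _)) h
  choose s c hs using fun G : Finset (Ed d) => key F (fun e => decide (e ∈ G))
  refine ⟨F.powerset.biUnion s, fun K => ∑ G ∈ F.powerset,
    (if (fun e => decide (e ∈ G)) ∈ A then (1 : ℝ) else 0) * (if K ∈ s G then c G K else 0),
    fun ω => ?_⟩
  rw [h0]
  simp only [hs]
  simp only [Finset.sum_mul]
  rw [Finset.sum_comm]
  refine Finset.sum_congr rfl fun G hG => ?_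
  rw [Finset.mul_sum]
  have h1 : ∀ K, (if (fun e => decide (e ∈ G)) ∈ A then (1 : ℝ) else 0) *
      (if K ∈ s G then c G K else 0) * (UF K).indicator (fun _ => (1 : ℝ)) ω =
      if K ∈ s G then (if (fun e => decide (e ∈ G)) ∈ A then (1 : ℝ) else 0) *
        (c G K * (UF K).indicator (fun _ => (1 : ℝ)) ω) else 0 := by
    intro K
    by_cases hK : K ∈ s G
    · rw [if_pos hK, if_pos hK, mul_assoc]
    · rw [if_neg hK, if_neg hK, mul_zero, zero_mul]
  simp only [h1]
  rw [← Finset.sum_filter]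
  refine (Finset.sum_congr ?_ fun _ _ => rfl)
  ext K
  simp only [Finset.mem_filter, Finset.mem_biUnion]
  constructor
  · intro h
    exact ⟨⟨G, hG, h⟩, h⟩
  · exact fun h => h.2

theorem fina_ind_inter (A B : Set (Cfg d)) (s : Finset (Finset (Ed d)))
    (c : Finset (Ed d) → ℝ)
    (h : ∀ ω, A.indicator (fun _ => (1 : ℝ)) ω =
      ∑ K ∈ s, c K * (UF K).indicator (fun _ => (1 : ℝ)) ω) (ω : Cfg d) :
    (A ∩ B).indicator (fun _ => (1 : ℝ)) ω =
      ∑ K ∈ s, c K * (UF K ∩ B).indicator (fun _ => (1 : ℝ)) ω := by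
  by_cases hB : ω ∈ B
  · have h1 : ∀ C : Set (Cfg d), (C ∩ B).indicator (fun _ => (1 : ℝ)) ω =
        C.indicator (fun _ => (1 : ℝ)) ω := by
      intro C
      by_cases hC : ω ∈ C
      · have hCB : ω ∈ C ∩ B := ⟨hC, hB⟩
        rw [indicator_of_mem hC, indicator_of_mem hCB]
      · have hCB : ω ∉ C ∩ B := fun h => hC h.1
        rw [indicator_of_notMem hC, indicator_of_notMem hCB]
    simp only [h1, h]
  · have h1 : ∀ C : Set (Cfg d), (C ∩ B).indicator (fun _ => (1 : ℝ)) ω = 0 := by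
      intro C
      exact indicator_of_notMem (fun h => hB h.2) _
    simp only [h1, mul_zero, Finset.sum_const_zero]

theorem fina_PW_comb (β : ℝ) (Λ : Finset (Ed d)) (A B : Set (Cfg d))
    (s : Finset (Finset (Ed d))) (c : Finset (Ed d) → ℝ)
    (h : ∀ ω, A.indicator (fun _ => (1 : ℝ)) ω =
      ∑ K ∈ s, c K * (UF K).indicator (fun _ => (1 : ℝ)) ω) :
    PW β Λ (A ∩ B) = ∑ K ∈ s, c K * PW β Λ (UF K ∩ B) := by
  have h1 : ∀ (C : Set (Cfg d)), PW β Λ C = (∑ T ∈ Λ.powerset,
      C.indicator (fun _ => (1 : ℝ)) (exw Λ T) * wW β Λ T) / ∑ T ∈ Λ.powerset, wW β Λ T := by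
    intro C
    unfold PW
    congr 1
    refine Finset.sum_congr rfl fun T _ => ?_
    by_cases hC : exw Λ T ∈ C
    · rw [indicator_of_mem hC, indicator_of_mem hC, one_mul]
    · rw [indicator_of_notMem hC, indicator_of_notMem hC, zero_mul]
  simp only [h1, fina_ind_inter A B s c h]
  simp only [Finset.sum_mul, Finset.sum_div, Finset.mul_sum]
  rw [Finset.sum_comm]
  refine Finset.sum_congr rfl fun K _ => ?_
  refine Finset.sum_congr rfl fun T _ => ?_
  ring

theorem fina_comb_EF (A : Set (Cfg d)) (hA : IsCyl A) :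
    ∃ (s : Finset (Finset (Ed d))) (c : Finset (Ed d) → ℝ),
      ∀ ω, A.indicator (fun _ => (1 : ℝ)) ω =
        ∑ K ∈ s, c K * (EF K).indicator (fun _ => (1 : ℝ)) ω := by
  obtain ⟨F, hF⟩ := hA
  obtain ⟨s, c, h⟩ := fina_comb_UF {ω : Cfg d | (fun e => !(ω e)) ∈ A} ⟨F, fun ω ω' hω =>
    hF _ _ fun e he => by rw [hω e he]⟩
  refine ⟨s, c, fun ω => ?_⟩
  have h1 := h (fun e => !(ω e))
  have h2 : A.indicator (fun _ => (1 : ℝ)) ω =
      {ω : Cfg d | (fun e => !(ω e)) ∈ A}.indicator (fun _ => (1 : ℝ)) (fun e => !(ω e)) := by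
    by_cases hω : ω ∈ A
    · rw [indicator_of_mem hω, indicator_of_mem]
      simpa using hω
    · rw [indicator_of_notMem hω, indicator_of_notMem]
      simpa using hω
  rw [h2, h1]
  refine Finset.sum_congr rfl fun K _ => ?_
  congr 1
  by_cases hω : ω ∈ EF K
  · rw [indicator_of_mem hω, indicator_of_mem]
    intro e he
    simp [hω e he]
  · rw [indicator_of_notMem hω, indicator_of_notMem]
    intro h3
    apply hω
    intro e he
    simpa using h3 e he

theorem fina_ind_inter' (A B : Set (Cfg d)) (s : Finset (Finset (Ed d)))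
    (c : Finset (Ed d) → ℝ)
    (h : ∀ ω, A.indicator (fun _ => (1 : ℝ)) ω =
      ∑ K ∈ s, c K * (EF K).indicator (fun _ => (1 : ℝ)) ω) (ω : Cfg d) :
    (A ∩ B).indicator (fun _ => (1 : ℝ)) ω =
      ∑ K ∈ s, c K * (EF K ∩ B).indicator (fun _ => (1 : ℝ)) ω := by
  by_cases hB : ω ∈ B
  · have h1 : ∀ C : Set (Cfg d), (C ∩ B).indicator (fun _ => (1 : ℝ)) ω =
        C.indicator (fun _ => (1 : ℝ)) ω := by
      intro C
      by_cases hC : ω ∈ C
      · have hCB : ω ∈ C ∩ B := ⟨hC, hB⟩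
        rw [indicator_of_mem hC, indicator_of_mem hCB]
      · have hCB : ω ∉ C ∩ B := fun h => hC h.1
        rw [indicator_of_notMem hC, indicator_of_notMem hCB]
    simp only [h1, h]
  · have h1 : ∀ C : Set (Cfg d), (C ∩ B).indicator (fun _ => (1 : ℝ)) ω = 0 := by
      intro C
      exact indicator_of_notMem (fun h => hB h.2) _
    simp only [h1, mul_zero, Finset.sum_const_zero]

theorem fina_real_comb' (μ : Measure (Cfg d)) [IsFiniteMeasure μ] (A B : Set (Cfg d))
    (hA : MeasurableSet A) (hB : MeasurableSet B) (hU : ∀ K, MeasurableSet (EF K : Set (Cfg d)))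
    (s : Finset (Finset (Ed d))) (c : Finset (Ed d) → ℝ)
    (h : ∀ ω, A.indicator (fun _ => (1 : ℝ)) ω =
      ∑ K ∈ s, c K * (EF K).indicator (fun _ => (1 : ℝ)) ω) :
    μ.real (A ∩ B) = ∑ K ∈ s, c K * μ.real (EF K ∩ B) := by
  have h1 : ∀ C : Set (Cfg d), MeasurableSet C →
      μ.real C = ∫ ω, C.indicator (fun _ => (1 : ℝ)) ω ∂μ := by
    intro C hC
    rw [integral_indicator hC]
    simp
  rw [h1 _ (hA.inter hB)]
  simp only [fina_ind_inter' A B s c h]
  rw [integral_finsetSum]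
  · refine Finset.sum_congr rfl fun K _ => ?_
    rw [integral_const_mul, ← h1 _ ((hU K).inter hB)]
  · intro K _
    refine Integrable.const_mul ?_ _
    exact (integrable_const (1 : ℝ)).indicator ((hU K).inter hB)

theorem fina_real_comb (μ : Measure (Cfg d)) [IsFiniteMeasure μ] (A B : Set (Cfg d))
    (hA : MeasurableSet A) (hB : MeasurableSet B) (hU : ∀ K, MeasurableSet (UF K : Set (Cfg d)))
    (s : Finset (Finset (Ed d))) (c : Finset (Ed d) → ℝ)
    (h : ∀ ω, A.indicator (fun _ => (1 : ℝ)) ω =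
      ∑ K ∈ s, c K * (UF K).indicator (fun _ => (1 : ℝ)) ω) :
    μ.real (A ∩ B) = ∑ K ∈ s, c K * μ.real (UF K ∩ B) := by
  have h1 : ∀ C : Set (Cfg d), MeasurableSet C →
      μ.real C = ∫ ω, C.indicator (fun _ => (1 : ℝ)) ω ∂μ := by
    intro C hC
    rw [integral_indicator hC]
    simp
  rw [h1 _ (hA.inter hB)]
  simp only [fina_ind_inter A B s c h]
  rw [integral_finsetSum]
  · refine Finset.sum_congr rfl fun K _ => ?_
    rw [integral_const_mul, ← h1 _ ((hU K).inter hB)]
  · intro K _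
    refine Integrable.const_mul ?_ _
    exact (integrable_const (1 : ℝ)).indicator ((hU K).inter hB)

/-! ## The infinite volume measures -/

theorem fina_cyl_UF (K : Finset (Ed d)) : IsCyl (UF K : Set (Cfg d)) :=
  ⟨K, fun ω ω' h => by
    constructor
    · intro h1 e he
      rw [← h e he]
      exact h1 e he
    · intro h1 e he
      rw [h e he]
      exact h1 e he⟩

theorem fina_cyl_EF (K : Finset (Ed d)) : IsCyl (EF K : Set (Cfg d)) :=
  ⟨K, fun ω ω' h => by
    constructor
    · intro h1 e he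
      rw [← h e he]
      exact h1 e he
    · intro h1 e he
      rw [h e he]
      exact h1 e he⟩

theorem fina_cyl_univ : IsCyl (Set.univ : Set (Cfg d)) := ⟨∅, fun _ _ _ => by simp⟩

/-- If `μ` and the finite volume limits agree on `UF K ∩ B`, they agree on `C ∩ B` for all the
cylinder events `C`. -/
theorem fina_ext (hLIM : ST_LIM) (hUPS : ST_UPS) (hMEAS : ST_MEAS) {β : ℝ} (hβ : 0 ≤ β)
    (μ : Measure (Cfg d)) [IsFiniteMeasure μ] (B : Set (Cfg d)) (hB : MeasurableSet B)
    (hBu : IsUpperSet B) (h : ∀ K : Finset (Ed d), μ.real (UF K ∩ B) = mW β (UF K ∩ B))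
    (C : Set (Cfg d)) (hC : IsCyl C) : μ.real (C ∩ B) = lW β (C ∩ B) := by
  obtain ⟨s, c, hs⟩ := fina_comb_UF C hC
  have hm := (hMEAS d).1
  rw [fina_real_comb μ C B (hm C hC) hB (fun K => hm _ (fina_cyl_UF K)) s c hs]
  have h1 : Tendsto (fun Λ : Finset (Ed d) => PW β Λ (C ∩ B)) atTop
      (𝓝 (∑ K ∈ s, c K * mW β (UF K ∩ B))) := by
    simp only [fina_PW_comb β _ C B s c hs]
    refine tendsto_finsetSum _ fun K _ => ?_
    refine Tendsto.const_mul _ ?_
    exact ((hLIM d β hβ).1 _ (((hUPS d 0 0 K).2.2).inter hBu)).1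
  have h2 := ((hLIM d β hβ).2 C B hC hBu).1
  rw [tendsto_nhds_unique h2 h1]
  exact Finset.sum_congr rfl fun K _ => by rw [h K]

theorem fina_inE_tendsto : Tendsto (fun V : Finset (Fin d → ℤ) => inE V) atTop atTop := by
  classical
  have hmem : ∀ (V : Finset (Fin d → ℤ)) (e : Ed d), e ∈ inE V ↔ ∀ x ∈ le e, x ∈ V := by
    intro V e
    unfold inE
    rw [Finset.mem_subtype, Finset.mem_sym2_iff]
    rfl
  refine tendsto_atTop.mpr fun Λ => ?_
  refine eventually_atTop.mpr ⟨vts Λ, fun V hV => ?_⟩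
  intro e he
  rw [hmem]
  intro x hx
  apply hV
  unfold vts
  rw [Finset.mem_biUnion]
  exact ⟨e, he, Sym2.mem_toFinset.mpr hx⟩

theorem fina_isFK (hKBC : ST_KBC) (hLIM : ST_LIM) {φ : ℝ → Measure (Cfg d)}
    (hφ : IsFKIsing d φ) {β : ℝ} (hβ : 0 ≤ β) : IsFK β (φ β) := by
  obtain ⟨h1, h2⟩ := hφ β hβ
  refine ⟨h1, fun A hA => ?_⟩
  have hu : IsUpperSet (Set.univ : Set (Cfg d)) := isUpperSet_univ
  have h3 := ((hLIM d β hβ).2 A Set.univ hA hu).1
  simp only [Set.inter_univ] at h3
  have h4 : Tendsto (fun V : Finset (Fin d → ℤ) => PW β (inE V) A) atTop (𝓝 (lW β A)) :=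
    h3.comp fina_inE_tendsto
  have h5 : Tendsto (fun V : Finset (Fin d → ℤ) => PW β (inE V) A) atTop
      (𝓝 ((φ β).real A)) := by
    refine (h2 A hA).congr' ?_
    filter_upwards [eventually_ge_atTop ({0} : Finset (Fin d → ℤ))] with V hV
    exact hKBC d β V ⟨0, hV (by simp)⟩ A
  rw [tendsto_nhds_unique h5 h4]
  exact h3

theorem fina_exists (hKBC : ST_KBC) (hGEN : ST_GEN) :
    ∃ φ : ℝ → Measure (Cfg d), IsFKIsing d φ := by
  have h : ∀ β : ℝ, ∃ μ : Measure (Cfg d), 0 ≤ β → IsFK β μ := by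
    intro β
    by_cases hβ : 0 ≤ β
    · obtain ⟨μ, hμ⟩ := (hGEN d β hβ).1
      exact ⟨μ, fun _ => hμ⟩
    · exact ⟨0, fun h => absurd h hβ⟩
  choose φ hφ using h
  refine ⟨φ, fun β hβ => ⟨(hφ β hβ).1, fun A hA => ?_⟩⟩
  refine (((hφ β hβ).2 A hA).comp fina_inE_tendsto).congr' ?_
  filter_upwards [eventually_ge_atTop ({0} : Finset (Fin d → ℤ))] with V hV
  exact (hKBC d β V ⟨0, hV (by simp)⟩ A).symm

/-- Convergence from a two-sided Cauchy property. -/
theorem fina_cauchy {ι κ : Type*} {l : Filter ι} {m : Filter κ} [l.NeBot] [m.NeBot]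
    (f : ι → ℝ) (g : κ → ℝ)
    (h : ∀ ε : ℝ, 0 < ε → ∃ s ∈ l, ∃ t ∈ m, ∀ i ∈ s, ∀ j ∈ t, |f i - g j| ≤ ε) :
    ∃ L : ℝ, Tendsto f l (𝓝 L) ∧ Tendsto g m (𝓝 L) := by
  have hc : Cauchy (map f l) := by
    rw [Metric.cauchy_iff]
    refine ⟨inferInstance, fun ε hε => ?_⟩
    obtain ⟨s, hs, t, ht, hst⟩ := h (ε / 3) (by positivity)
    obtain ⟨j, hj⟩ := Filter.nonempty_of_mem ht
    refine ⟨f '' s, image_mem_map hs, ?_⟩
    rintro _ ⟨i, hi, rfl⟩ _ ⟨i', hi', rfl⟩
    have h1 := hst i hi j hj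
    have h2 := hst i' hi' j hj
    rw [Real.dist_eq]
    calc |f i - f i'| = |(f i - g j) - (f i' - g j)| := by ring_nf
      _ ≤ |f i - g j| + |f i' - g j| := abs_sub _ _
      _ ≤ ε / 3 + ε / 3 := add_le_add h1 h2
      _ < ε := by linarith
  obtain ⟨L, hL⟩ := cauchy_map_iff_exists_tendsto.mp hc
  refine ⟨L, hL, ?_⟩
  rw [Metric.tendsto_nhds]
  intro ε hε
  obtain ⟨s, hs, t, ht, hst⟩ := h (ε / 3) (by positivity)
  have h3 := (Metric.tendsto_nhds.mp hL) (ε / 3) (by positivity)
  obtain ⟨i, hi, hi2⟩ := Filter.nonempty_of_mem (inter_mem hs h3)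
  filter_upwards [ht] with j hj
  have h4 := hst i hi j hj
  have h5 : dist (f i) L < ε / 3 := hi2
  rw [Real.dist_eq] at h5 ⊢
  calc |g j - L| = |(f i - L) - (f i - g j)| := by ring_nf
    _ ≤ |f i - L| + |f i - g j| := abs_sub _ _
    _ < ε / 3 + ε / 3 + ε / 3 := by linarith
    _ = ε := by ring


/-! ## The final theorem -/

theorem st_FINA (hUPS : ST_UPS) (hLIM : ST_LIM) (hBMON : ST_BMON) (hCONT : ST_CONT)
    (hTWO : ST_TWO) (hSIMN : ST_SIMN) (hCS0 : ST_CS0) (hCS1 : ST_CS1) (hGEN : ST_GEN)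
    (hMEAS : ST_MEAS) (hCPT : ST_CPT) (hKBC : ST_KBC) (hLIMI : ST_LIMI) (hLIMC : ST_LIMC)
    (hBK : ST_BK) (hPEI : ST_PEI) : FINAL := by
  intro d hd
  refine ⟨fina_exists hKBC hGEN, fun φ hφ => ?_⟩
  have hFK : ∀ β, 0 ≤ β → IsFK β (φ β) := fun β hβ => fina_isFK hKBC hLIM hφ hβ
  have hMcyl := (hMEAS d).1
  have hMCN := (hMEAS d).2.1
  have hMIN := (hMEAS d).2.2.1
  have hUCN : ∀ x y : Fin d → ℤ, IsUpperSet (CN x y) := fun x y => (hUPS d x y ∅).1
  have hUIN : ∀ x : Fin d → ℤ, IsUpperSet (IN x) := fun x => (hUPS d x x ∅).2.1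
  -- the magnetization
  have hth : ∀ β, 0 ≤ β → (φ β).real (IN 0) = th d β := by
    intro β hβ
    have h := hLIMI d hd β hβ (φ β) (hFK β hβ) ∅ 0
    have h1 : (UF ∅ : Set (Cfg d)) = Set.univ := by
      ext ω
      simp [UF]
    rw [h1, Set.univ_inter] at h
    exact h
  have hPWnn : ∀ β, 0 ≤ β → ∀ (Λ : Finset (Ed d)) (A : Set (Cfg d)), 0 ≤ PW β Λ A := by
    intro β hβ Λ A
    have h := (hCONT d Λ).2 β hβ
    rw [← h.2.1]
    exact h.2.2.1 ∅ A (Set.empty_subset _)
  have hthmono : ∀ β β', 0 ≤ β → β ≤ β' → th d β ≤ th d β' := by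
    intro β β' hβ hββ
    refine le_ciInf fun Λ => ?_
    exact (((hLIM d β hβ).1 _ (hUIN 0)).2.2.2 Λ).trans (hBMON d β β' hβ hββ Λ _ (hUIN 0))
  have hthnn : ∀ β, 0 ≤ β → 0 ≤ th d β := by
    intro β hβ
    rw [← hth β hβ]
    exact measureReal_nonneg
  -- the critical point
  set βc := betac φ with hβc
  have hset : {β : ℝ | 0 ≤ β ∧ 0 < (φ β).real (IN 0)} = {β : ℝ | 0 ≤ β ∧ 0 < th d β} := by
    ext β
    constructor
    · rintro ⟨h1, h2⟩
      exact ⟨h1, by rw [← hth β h1]; exact h2⟩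
    · rintro ⟨h1, h2⟩
      exact ⟨h1, by rw [hth β h1]; exact h2⟩
  have hne : {β : ℝ | 0 ≤ β ∧ 0 < th d β}.Nonempty := by
    obtain ⟨β, h1, h2⟩ := hPEI d hd
    exact ⟨β, h1.le, h2⟩
  have hbb : BddBelow {β : ℝ | 0 ≤ β ∧ 0 < th d β} := ⟨0, fun β h => h.1⟩
  have hc0 : 0 ≤ βc := by
    rw [hβc, betac, hset]
    exact le_csInf hne fun β h => h.1
  have hsup : ∀ β, βc < β → 0 < th d β := by
    intro β hβ
    rw [hβc, betac, hset] at hβ
    obtain ⟨b, hb, hbβ⟩ := exists_lt_of_csInf_lt hne hβ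
    exact hb.2.trans_le (hthmono b β hb.1 hbβ.le)
  have hsub : ∀ β, 0 ≤ β → β < βc → (φ β).real (IN 0) = 0 := by
    intro β hβ0 hβ
    by_contra h
    have h1 : 0 < (φ β).real (IN 0) := lt_of_le_of_ne measureReal_nonneg (Ne.symm h)
    have h2 : βc ≤ β := by
      rw [hβc, betac]
      refine csInf_le ?_ ⟨hβ0, h1⟩
      exact ⟨0, fun β h => h.1⟩
    exact absurd hβ (not_lt.mpr h2)
  have hcpos : 0 < βc := by
    rcases eq_or_lt_of_le hc0 with h | h
    · exfalso
      have h1 : ∀ β, 0 < β → 1 ≤ ∑ y ∈ sph d 1, S2 β y := fun β hβ =>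
        hSIMN d hd β hβ.le (hsup β (h ▸ hβ)) 1 le_rfl
      have h2 : Tendsto (fun b => ∑ y ∈ sph d 1, S2 b y) (𝓝[>] 0)
          (𝓝 (∑ y ∈ sph d 1, S2 0 y)) := by
        refine tendsto_finsetSum _ fun y _ => ?_
        exact ((hLIM d 0 le_rfl).1 _ (hUCN 0 y)).2.1
      have h3 : ∑ y ∈ sph d 1, S2 0 y = 0 := by
        refine Finset.sum_eq_zero fun y hy => ?_
        refine (hTWO d hd 0 le_rfl).2.2.2.2 rfl y ?_
        rintro rfl
        have h4 : nrm (0 : Fin d → ℤ) = 1 := by
          unfold sph at hy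
          exact (Finset.mem_filter.mp hy).2
        have h5 : nrm (0 : Fin d → ℤ) = 0 := by
          unfold nrm
          simp
        omega
      rw [h3] at h2
      have h4 : (1 : ℝ) ≤ 0 := ge_of_tendsto h2 (by
        filter_upwards [self_mem_nhdsWithin] with b hb
        exact h1 b hb)
      linarith
    · exact h
  refine ⟨hcpos, fun β hβ => ?_, hsub, ?_⟩
  · rw [hth β (hc0.trans hβ.le)]
    exact hsup β hβ
  -- the comparison
  have hCmp : Cmp d βc := by
    rcases eq_or_lt_of_le (hthnn βc hc0) with h | h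
    · exact hCS0 d hd βc hcpos hsup h.symm
    · exact hCS1 d hd βc hcpos h
  have hS2 : ∀ x : Fin d → ℤ, 0 < S2 βc x := (hTWO d hd βc hc0).2.2.2.1 hcpos
  -- conditional probabilities
  haveI hprob : ∀ β, 0 ≤ β → IsProbabilityMeasure (φ β) := fun β hβ => (hφ β hβ).1
  have hEFcyl : ∀ F : Finset (Ed d), IsCyl (EF F : Set (Cfg d)) := fina_cyl_EF
  have hcn : ∀ x : Fin d → ℤ, (φ βc).real (CN 0 x) = S2 βc x := by
    intro x
    have h := hLIMC d hd βc hc0 (φ βc) (hFK βc hc0) (hBK d hd βc hc0 (φ βc) (hFK βc hc0)) ∅ 0 x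
    have h1 : (UF ∅ : Set (Cfg d)) = Set.univ := by
      ext ω
      simp [UF]
    rw [h1, Set.univ_inter] at h
    exact h
  haveI := hprob βc hc0
  have hx : ∀ (F : Finset (Ed d)) (x : Fin d → ℤ),
      (φ βc).real (EF F ∩ CN 0 x) = lW βc (EF F ∩ CN 0 x) := by
    intro F x
    refine fina_ext hLIM hUPS hMEAS hc0 (φ βc) (CN 0 x) (hMCN 0 x) (hUCN 0 x) (fun K => ?_) _
      (hEFcyl F)
    exact hLIMC d hd βc hc0 (φ βc) (hFK βc hc0) (hBK d hd βc hc0 (φ βc) (hFK βc hc0)) K 0 x
  have hi : ∀ β, 0 ≤ β → ∀ F : Finset (Ed d),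
      (φ β).real (EF F ∩ IN 0) = lW β (EF F ∩ IN 0) := by
    intro β hβ F
    haveI := hprob β hβ
    refine fina_ext hLIM hUPS hMEAS hβ (φ β) (IN 0) (hMIN 0) (hUIN 0) (fun K => ?_) _ (hEFcyl F)
    exact hLIMI d hd β hβ (φ β) (hFK β hβ) K 0
  haveI hd0 : Nonempty (Fin d) := ⟨⟨0, by omega⟩⟩
  haveI : Infinite (Fin d → ℤ) := inferInstance
  -- both limits for the events `EF F`
  have hF : ∀ F : Finset (Ed d), ∃ L : ℝ,
      Tendsto (fun β => (φ β).real (EF F ∩ IN 0) / (φ β).real (IN 0)) (𝓝[>] βc) (𝓝 L) ∧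
      Tendsto (fun x : Fin d → ℤ => (φ βc).real (EF F ∩ CN 0 x) / (φ βc).real (CN 0 x))
        cofinite (𝓝 L) := by
    intro F
    refine fina_cauchy _ _ fun ε hε => ?_
    obtain ⟨R, b, hb, hRb⟩ := hCmp F ε hε
    refine ⟨Set.Ioo βc b, Ioo_mem_nhdsGT hb, {x | R ≤ nrm x}, ?_, ?_⟩
    · rw [mem_cofinite]
      refine Set.Finite.subset (Set.finite_Icc (fun _ => -(R : ℤ)) (fun _ => (R : ℤ))) ?_
      intro x hx'
      have h1 : nrm x < R := by simpa using hx'
      have h2 : ∀ i, (x i).natAbs < R := fun i =>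
        (Finset.le_sup (f := fun i => (x i).natAbs) (Finset.mem_univ i)).trans_lt h1
      constructor
      · intro i
        have := h2 i
        change -(R : ℤ) ≤ x i
        omega
      · intro i
        have := h2 i
        change x i ≤ (R : ℤ)
        omega
    · intro β hβ x hxR
      rw [hi β (hc0.trans hβ.1.le), hth β (hc0.trans hβ.1.le), hx, hcn]
      exact hRb x hxR β hβ.1 hβ.2
  choose L hL1 hL2 using hF
  -- all the cylinder events
  have hE : ∀ E : Set (Cfg d), IsCyl E → ∃ M : ℝ,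
      Tendsto (fun β => (φ β).real (E ∩ IN 0) / (φ β).real (IN 0)) (𝓝[>] βc) (𝓝 M) ∧
      Tendsto (fun x : Fin d → ℤ => (φ βc).real (E ∩ CN 0 x) / (φ βc).real (CN 0 x))
        cofinite (𝓝 M) := by
    intro E hEc
    obtain ⟨s, c, hs⟩ := fina_comb_EF E hEc
    refine ⟨∑ F ∈ s, c F * L F, ?_, ?_⟩
    · have h1 : ∀ᶠ β in 𝓝[>] βc, ∑ F ∈ s, c F * ((φ β).real (EF F ∩ IN 0) / (φ β).real (IN 0)) =
          (φ β).real (E ∩ IN 0) / (φ β).real (IN 0) := by
        filter_upwards [self_mem_nhdsWithin] with β hβ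
        haveI := hprob β (hc0.trans (le_of_lt hβ))
        rw [fina_real_comb' (φ β) E (IN 0) (hMcyl E hEc) (hMIN 0)
          (fun K => hMcyl _ (hEFcyl K)) s c hs, Finset.sum_div]
        exact Finset.sum_congr rfl fun F _ => by ring
      refine Tendsto.congr' h1 ?_
      exact tendsto_finsetSum _ fun F _ => (hL1 F).const_mul _
    · have h1 : ∀ x : Fin d → ℤ,
          ∑ F ∈ s, c F * ((φ βc).real (EF F ∩ CN 0 x) / (φ βc).real (CN 0 x)) =
          (φ βc).real (E ∩ CN 0 x) / (φ βc).real (CN 0 x) := by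
        intro x
        rw [fina_real_comb' (φ βc) E (CN 0 x) (hMcyl E hEc) (hMCN 0 x)
          (fun K => hMcyl _ (hEFcyl K)) s c hs, Finset.sum_div]
        exact Finset.sum_congr rfl fun F _ => by ring
      refine Tendsto.congr h1 ?_
      exact tendsto_finsetSum _ fun F _ => (hL2 F).const_mul _
  -- the limit measure
  have hcn0 : ∀ x : Fin d → ℤ, (φ βc) (CN 0 x) ≠ 0 := by
    intro x h
    have h1 := hS2 x
    rw [← hcn x, measureReal_def, h] at h1
    simp at h1
  have hcond : ∀ x : Fin d → ℤ,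
      IsProbabilityMeasure (ProbabilityTheory.cond (φ βc) (CN 0 x)) := fun x =>
    ProbabilityTheory.cond_isProbabilityMeasure (hcn0 x)
  have hcr : ∀ (x : Fin d → ℤ) (E : Set (Cfg d)),
      (ProbabilityTheory.cond (φ βc) (CN 0 x)).real E =
        (φ βc).real (E ∩ CN 0 x) / (φ βc).real (CN 0 x) := by
    intro x E
    rw [measureReal_def, ProbabilityTheory.cond_apply (hMCN 0 x), ENNReal.toReal_mul,
      ENNReal.toReal_inv, measureReal_def, measureReal_def, Set.inter_comm, div_eq_inv_mul]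
  obtain ⟨ν, hν1, hν2⟩ := hCPT d (Fin d → ℤ) cofinite inferInstance
    (fun x => ProbabilityTheory.cond (φ βc) (CN 0 x)) hcond (fun A hA => by
      obtain ⟨M, -, hM⟩ := hE A hA
      exact ⟨M, by simpa only [hcr] using hM⟩)
  refine ⟨ν, hν1, fun E hEc => ?_⟩
  obtain ⟨M, hM1, hM2⟩ := hE E hEc
  have h1 := hν2 E hEc
  simp only [hcr] at h1
  rw [tendsto_nhds_unique h1 hM2]
  exact ⟨hM2, hM1⟩

end IIC
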