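import Pool.Agent.Helper1.IIC.WD
import Pool.Agent.Helper20.IIC.FINA
import Pool.Agent.Helper23.IIC.CMPX
import Pool.Agent.Helper30.IIC.BK3
import Pool.Agent.Helper30.IIC.CS0
import Pool.Agent.Helper34.IIC.CPT
import Pool.Agent.Helper37.IIC.CONT
import Pool.Agent.Helper37.IIC.INV
import Pool.Agent.Helper37.IIC.UPS
import Pool.Agent.Helper4.IIC.LIMI
import Pool.Agent.Helper41.IIC.DEC
import Pool.Agent.Helper41.IIC.KBC
import Pool.Agent.Helper41.IIC.MEAS
import Pool.Agent.Helper44.IIC.FKGA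
import Pool.Agent.Helper44.IIC.MON
import Pool.Agent.Helper44.IIC.SIMF
import Pool.Agent.Helper44.IIC.SWI
import Pool.Agent.Helper44.IIC.TWN
import Pool.Agent.Helper55.IIC.GEN
import Pool.Agent.Helper55.IIC.LATC
import Pool.Agent.Helper56.IIC.PE2
import Pool.Agent.Helper57.IIC.MM1
import Pool.Agent.Helper58.IIC.FIN
import Pool.Agent.Helper59.IIC.MMSA
import Pool.Agent.Helper59.IIC.SUP
import Pool.Agent.Helper6.IIC.SIMN
import Pool.Agent.Helper64.IIC.DOM
import Pool.Agent.Helper66.IIC.CS1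
import Pool.Agent.Helper66.IIC.FINL
import Pool.Agent.Helper67.IIC.LIMC
import Pool.Agent.Helper7.IIC.WA
import Pool.Agent.Helper75.IIC.TRI
import Pool.Agent.Helper76.IIC.WR
import Pool.Agent.Helper78.IIC.BMON
import Pool.Agent.Helper78.IIC.FKG
import Pool.Agent.Helper78.IIC.SIML
import Pool.Agent.Helper79.IIC.MM2
import Pool.Agent.Helper81.IIC.CMPI
import Pool.Agent.Helper81.IIC.LIM
import Pool.Agent.Helper81.IIC.TWB
import Pool.Agent.Helper90.IIC.BR
import Pool.Agent.Helper90.IIC.TWS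
import Pool.Agent.Helper91.IIC.PEI
import Pool.Agent.Helper94.IIC.BK
import Pool.Agent.Helper94.IIC.ERG
import Pool.Agent.Helper94.IIC.FE
import Pool.Agent.Helper95.IIC.EXPL
import Pool.Agent.Helper96.IIC.PE1
import Pool.Agent.Helper96.IIC.TRM
import Pool.Agent.Helper96.IIC.TWO
import Pool.Agent.Helper96.IIC.WEX

/-! # Assembly of all the modules -/

namespace IIC

theorem all_UPS : ST_UPS := st_UPS

theorem all_SUP : ST_SUP := st_SUP

theorem all_FKGA : ST_FKGA := st_FKGA all_SUP

theorem all_BR : ST_BR := st_BR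

theorem all_FKG : ST_FKG := st_FKG all_FKGA all_BR

theorem all_MON : ST_MON := st_MON all_FKG

theorem all_BMON : ST_BMON := st_BMON all_SUP all_BR

theorem all_CONT : ST_CONT := st_CONT

theorem all_LIM : ST_LIM := st_LIM all_MON all_BMON all_CONT

theorem all_INV : ST_INV := st_INV

theorem all_LATC : ST_LATC := st_LATC

theorem all_TWB : ST_TWB := st_TWB all_INV all_LIM all_FKG all_CONT all_UPS all_LATC

theorem all_FKS : ST_FKS := st_FKS

theorem all_MMSA : ST_MMSA := st_MMSA all_FKS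

theorem all_MM1 : ST_MM1 := st_MM1 all_MMSA all_BR all_LATC all_LIM all_UPS

theorem all_MM2 : ST_MM2 := st_MM2 all_MMSA all_BR all_LIM all_UPS

theorem all_TWO : ST_TWO := st_TWO all_TWB all_MM1 all_MM2

theorem all_TWN : ST_TWN := st_TWN

theorem all_TWS : ST_TWS := st_TWS

theorem all_SWI : ST_SWI := st_SWI

theorem all_SRC : ST_SRC := st_SRC

theorem all_SIMF : ST_SIMF := st_SIMF all_TWN all_TWS all_SWI all_SRC all_FKS

theorem all_SIML : ST_SIML := st_SIML all_SIMF all_BR

theorem all_SIMN : ST_SIMN := st_SIMN all_SIML all_LIM all_TWB all_LATC all_CONT all_UPS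

theorem all_EXPL : ST_EXPL := st_EXPL all_TWN all_TWS all_SRC all_FKS all_FKGA

theorem all_FIN : ST_FIN := st_FIN all_TWN all_TWS all_SWI all_SRC all_FKS all_EXPL

theorem all_FINL : ST_FINL := st_FINL all_FIN all_BR

theorem all_CMPX : ST_CMPX := st_CMPX all_FINL all_LIM all_TWB all_UPS

theorem all_CMPI : ST_CMPI := st_CMPI all_FINL all_LIM all_TWB all_LATC all_CONT all_UPS

theorem all_WA : ST_WA := st_WA

theorem all_WR : ST_WR := st_WR all_WA

theorem all_WD : ST_WD := st_WD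

theorem all_WEX : ST_WEX := st_WEX all_WA all_WR all_WD

theorem all_DEC : ST_DEC := st_DEC all_LIM all_LATC all_CONT all_UPS

theorem all_CS0 : ST_CS0 := st_CS0 all_CMPX all_CMPI all_WEX all_WA all_TWO all_LIM all_DEC all_SIMN all_UPS

theorem all_DOM : ST_DOM := st_DOM all_MON all_SUP all_BR

theorem all_CS1 : ST_CS1 := st_CS1 all_DOM all_FKG all_LIM all_TWB all_LATC all_CONT all_UPS all_INV

theorem all_GEN : ST_GEN := st_GEN all_LIM

theorem all_MEAS : ST_MEAS := st_MEAS

theorem all_CPT : ST_CPT := st_CPT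

theorem all_KBC : ST_KBC := st_KBC

theorem all_LIMI : ST_LIMI := st_LIMI all_LIM all_MEAS all_LATC all_CONT all_UPS

theorem all_LIMC : ST_LIMC := st_LIMC all_LIM all_MEAS all_CONT all_UPS

theorem all_TRI : ST_TRI := st_TRI

theorem all_TRM : ST_TRM := st_TRM all_GEN all_INV all_MEAS

theorem all_FE : ST_FE := st_FE all_BR

theorem all_BK3 : ST_BK3 := st_BK3 all_FE all_MEAS all_LATC

theorem all_ERG : ST_ERG := st_ERG all_DOM all_FKG all_TRM all_INV

theorem all_BK : ST_BK := st_BK all_TRI all_TRM all_BK3 all_ERG all_FE all_MEAS all_LATC all_INV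

theorem all_PE1 : ST_PE1 := st_PE1 all_BR

theorem all_PE2 : ST_PE2 := st_PE2

theorem all_PEI : ST_PEI := st_PEI all_PE1 all_PE2 all_CONT

theorem final : FINAL :=
  st_FINA all_UPS all_LIM all_BMON all_CONT all_TWO all_SIMN all_CS0 all_CS1 all_GEN all_MEAS all_CPT all_KBC all_LIMI all_LIMC all_BK all_PEI

end IIC
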