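import Mathlib

/-!
# The FK-Ising incipient infinite cluster: basic definitions (problem MP_084621_pr)

* abstract multigraphs `ends : E → Sym2 V`: `Step`, `Conn`, number of clusters `ncl`,
  FK-Ising probability `fkP` on a finite multigraph;
* spin sums on a finite multigraph: `bond`, `two`, `tw` (trace weights), `Zs`;
* the lattice `ℤ^d`: edges `Ed d`, configurations `Cfg d = Ed d → Bool`, wired finite volume
  FK-Ising probability `PW β Λ A` (`Λ` a finite set of edges, all the edges off `Λ` are open),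
  infinite volume quantities `mW`, `lW`, `S2`, `th`.
-/

namespace IIC

open Filter Topology Set
open scoped BigOperators

universe u v

/-! ### Multigraphs -/

section Abstract

variable {V : Type u} {E : Type v}

/-- One step along an edge of `T`. -/
def Step (ends : E → Sym2 V) (T : Set E) (x y : V) : Prop := ∃ e ∈ T, ends e = s(x, y)

/-- `x` and `y` are connected by edges of `T`. -/
def Conn (ends : E → Sym2 V) (T : Set E) (x y : V) : Prop :=
  Relation.ReflTransGen (Step ends T) x y

/-- The number of clusters of `(V, T)`. -/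
noncomputable def ncl (ends : E → Sym2 V) (T : Set E) : ℕ := Nat.card (Quot (Step ends T))

/-- The FK-Ising weight of the set `T` of open edges. -/
noncomputable def fkw (ends : E → Sym2 V) (β : ℝ) (T : Finset E) : ℝ :=
  (Real.exp (2 * β) - 1) ^ T.card * 2 ^ ncl ends (T : Set E)

/-- The FK-Ising probability of the event `A` on a finite multigraph. -/
noncomputable def fkP [Fintype E] (ends : E → Sym2 V) (β : ℝ) (A : Set (Finset E)) : ℝ :=
  (∑ T : Finset E, A.indicator (fkw ends β) T) / ∑ T : Finset E, fkw ends β T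

/-- The event that `x` and `y` are connected. -/
def cn (ends : E → Sym2 V) (x y : V) : Set (Finset E) := {T | Conn ends (T : Set E) x y}

/-- The event that all the edges of `F` are closed. -/
def ef (F : Finset E) : Set (Finset E) := {T | Disjoint T F}

/-- `v` is an endpoint of an edge of `F`. -/
def IsEnd (ends : E → Sym2 V) (F : Finset E) (v : V) : Prop := ∃ e ∈ F, v ∈ ends e

/-! Spins. -/

/-- The value `±1` of the bond `e`. -/
noncomputable def bond (ends : E → Sym2 V) (σ : V → ℤˣ) (e : E) : ℝ :=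
  (((Sym2.map σ (ends e)).mul : ℤˣ) : ℤ)

/-- The two point function `σ_x σ_y` (it is `1` if `x = y`). -/
noncomputable def two (x y : V) (σ : V → ℤˣ) : ℝ := ((σ x * σ y : ℤˣ) : ℤ)

/-- Weight of the random currents with trace `T` and source function `f` (times `2^|V|`). -/
noncomputable def tw [Fintype V] [DecidableEq V] (ends : E → Sym2 V) (β : ℝ) (T : Finset E)
    (f : (V → ℤˣ) → ℝ) : ℝ :=
  ∑ σ : V → ℤˣ, f σ * ∏ e ∈ T, (Real.exp (β * bond ends σ e) - 1)

/-- Partition function with the source function `f`; the couplings of the edges of `F` are `0`. -/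
noncomputable def Zs [Fintype V] [DecidableEq V] [Fintype E] [DecidableEq E] (ends : E → Sym2 V)
    (β : ℝ) (F : Finset E) (f : (V → ℤˣ) → ℝ) : ℝ :=
  ∑ σ : V → ℤˣ, f σ * ∏ e ∈ Finset.univ \ F, Real.exp (β * bond ends σ e)

/-- Sums over pairs of traces: `∑_{T₁, T₂} tw T₁ f * tw T₂ g * Ψ T₁ T₂`. -/
noncomputable def PP [Fintype V] [DecidableEq V] [Fintype E] (ends : E → Sym2 V) (β : ℝ)
    (f g : (V → ℤˣ) → ℝ) (Ψ : Finset E → Finset E → ℝ) : ℝ :=
  ∑ T₁ : Finset E, ∑ T₂ : Finset E, tw ends β T₁ f * tw ends β T₂ g * Ψ T₁ T₂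

end Abstract

/-! ### The lattice -/

/-- The nearest neighbour graph of `ℤ^d`. -/
def lat (d : ℕ) : SimpleGraph (Fin d → ℤ) where
  Adj x y := ∑ i, |x i - y i| = 1
  symm := ⟨by
    intro x y h
    rw [← h]
    exact Finset.sum_congr rfl fun i _ => abs_sub_comm _ _⟩
  loopless := ⟨by
    intro x h
    simp at h⟩

/-- The edges of `ℤ^d`. -/
abbrev Ed (d : ℕ) := ↥(lat d).edgeSet

/-- The endpoints of an edge. -/
def le {d : ℕ} (e : Ed d) : Sym2 (Fin d → ℤ) := e.1

/-- Configurations (`true` means open). -/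
abbrev Cfg (d : ℕ) := Ed d → Bool

variable {d : ℕ}

/-- The open edges. -/
def op (ω : Cfg d) : Set (Ed d) := {e | ω e = true}

/-- `x` and `y` are connected by open edges. -/
def LConn (ω : Cfg d) (x y : Fin d → ℤ) : Prop := Conn le (op ω) x y

/-- The cluster of `x` is infinite. -/
def Infin (ω : Cfg d) (x : Fin d → ℤ) : Prop := {y | LConn ω x y}.Infinite

/-- The event `x ↔ y`. -/
def CN (x y : Fin d → ℤ) : Set (Cfg d) := {ω | LConn ω x y}

/-- The event `x ↔ ∞`. -/
def IN (x : Fin d → ℤ) : Set (Cfg d) := {ω | Infin ω x}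

/-- All the edges of `F` are closed. -/
def EF (F : Finset (Ed d)) : Set (Cfg d) := {ω | ∀ e ∈ F, ω e = false}

/-- All the edges of `K` are open. -/
def UF (K : Finset (Ed d)) : Set (Cfg d) := {ω | ∀ e ∈ K, ω e = true}

/-- Cylinder events. -/
def IsCyl (A : Set (Cfg d)) : Prop :=
  ∃ F : Finset (Ed d), ∀ ω ω' : Cfg d, (∀ e ∈ F, ω e = ω' e) → (ω ∈ A ↔ ω' ∈ A)

/-- The configuration which is `T` on `Λ` and `ξ` off `Λ`. -/
noncomputable def ext (ξ : Cfg d) (Λ T : Finset (Ed d)) : Cfg d := by
  classical exact fun e => if e ∈ Λ then decide (e ∈ T) else ξ e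

/-- The configuration which is `T` on `Λ`, all the edges off `Λ` being open. -/
noncomputable def exw (Λ T : Finset (Ed d)) : Cfg d := ext (fun _ => true) Λ T

/-- Wired FK-Ising weight. -/
noncomputable def wW (β : ℝ) (Λ T : Finset (Ed d)) : ℝ :=
  (Real.exp (2 * β) - 1) ^ T.card * 2 ^ ncl le (op (exw Λ T))

/-- The wired FK-Ising probability on `Λ` of the event `A`. -/
noncomputable def PW (β : ℝ) (Λ : Finset (Ed d)) (A : Set (Cfg d)) : ℝ :=
  (∑ T ∈ Λ.powerset, A.indicator (fun _ => wW β Λ T) (exw Λ T)) / ∑ T ∈ Λ.powerset, wW β Λ T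

/-- Infinite volume limit for increasing events. -/
noncomputable def mW (β : ℝ) (A : Set (Cfg d)) : ℝ := ⨅ Λ : Finset (Ed d), PW β Λ A

/-- Infinite volume limit. -/
noncomputable def lW (β : ℝ) (A : Set (Cfg d)) : ℝ :=
  limUnder atTop (fun Λ : Finset (Ed d) => PW β Λ A)

/-- The two point function of the plus state. -/
noncomputable def S2 (β : ℝ) (x : Fin d → ℤ) : ℝ := mW β (CN 0 x)

/-- The magnetization. -/
noncomputable def th (d : ℕ) (β : ℝ) : ℝ := mW β (IN (0 : Fin d → ℤ))

/-- The vertices of the quotient graph of `Λ`: the components of the complement of `Λ`. -/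
abbrev QV (Λ : Finset (Ed d)) := Quot (Step le ((Λ : Set (Ed d))ᶜ))

/-- The class of a point of `ℤ^d`. -/
def qm (Λ : Finset (Ed d)) (x : Fin d → ℤ) : QV Λ := Quot.mk _ x

/-- The edges of the quotient graph are the edges of `Λ`. -/
def qe (Λ : Finset (Ed d)) (e : {e // e ∈ Λ}) : Sym2 (QV Λ) := Sym2.map (qm Λ) (le e.1)

/-- A set of edges of the quotient graph as a subset of `Λ`. -/
def qs {Λ : Finset (Ed d)} (T : Finset {e // e ∈ Λ}) : Finset (Ed d) :=
  T.map (Function.Embedding.subtype _)

/-- Pull back of a configuration by an automorphism of the lattice. -/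
def pb (g : lat d ≃g lat d) (ω : Cfg d) : Cfg d := fun e => ω (g.mapEdgeSet e)

/-- Infinite volume wired FK-Ising measure. -/
def IsFK (β : ℝ) (μ : MeasureTheory.Measure (Cfg d)) : Prop :=
  MeasureTheory.IsProbabilityMeasure μ ∧
    ∀ A : Set (Cfg d), IsCyl A → Tendsto (fun Λ : Finset (Ed d) => PW β Λ A) atTop (𝓝 (μ.real A))

/-- `v` is an endpoint of an edge of `F`. -/
noncomputable def vts (F : Finset (Ed d)) : Finset (Fin d → ℤ) := by
  classical exact F.biUnion fun e => (le e).toFinset

/-- All the edges at `v` are closed. -/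
noncomputable def clo (v : Fin d → ℤ) (ω : Cfg d) : Cfg d := by
  classical exact fun e => if v ∈ le e then false else ω e

/-- `v` is a trifurcation: there are three open edges from `v` to points of three different infinite
clusters of the configuration in which all the edges at `v` are closed. -/
def Tri (v : Fin d → ℤ) (ω : Cfg d) : Prop :=
  ∃ a : Fin 3 → (Fin d → ℤ), (∀ i, ∃ e : Ed d, ω e = true ∧ le e = s(v, a i)) ∧
    (∀ i, Infin (clo v ω) (a i)) ∧ ∀ i j, i ≠ j → ¬ LConn (clo v ω) (a i) (a j)

/-- Two edges lie on a common unit square. -/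
def Plq (e e' : Ed d) : Prop :=
  ∃ (x : Fin d → ℤ) (i j : Fin d), i ≠ j ∧
    (∀ f : Ed d, (f = e ∨ f = e') →
      le f = s(x, x + Pi.single i 1) ∨ le f = s(x, x + Pi.single j 1) ∨
      le f = s(x + Pi.single j 1, x + Pi.single i 1 + Pi.single j 1) ∨
      le f = s(x + Pi.single i 1, x + Pi.single i 1 + Pi.single j 1))

/-- Sup norm of an integer vector (natural number). -/
def nrm (x : Fin d → ℤ) : ℕ := Finset.univ.sup fun i => (x i).natAbs

/-- The sphere of radius `n` for the sup norm. -/
noncomputable def sph (d n : ℕ) : Finset (Fin d → ℤ) := by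
  classical exact (Finset.Icc (fun _ => -(n : ℤ)) (fun _ => (n : ℤ))).filter fun x => nrm x = n

end IIC
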