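import Pool.Agent.Helper20.IIC.Defs

/-! # Statements of the modules (FK-Ising incipient infinite cluster) -/

namespace IIC

open Filter Topology Set MeasureTheory
open scoped BigOperators

/-! ## Finite multigraphs -/

/-- SUP: the number of clusters is supermodular. -/
def ST_SUP : Prop :=
  ∀ (V : Type) [Finite V] (E : Type) (ends : E → Sym2 V) (S T : Set E),
    ncl ends S + ncl ends T ≤ ncl ends (S ∪ T) + ncl ends (S ∩ T)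

/-- FKGA: the FKG inequality on a finite multigraph. -/
def ST_FKGA : Prop :=
  ∀ (V : Type) [Finite V] (E : Type) [Fintype E] [DecidableEq E] (ends : E → Sym2 V) (β : ℝ),
    0 ≤ β → ∀ A B : Set (Finset E), IsUpperSet A → IsUpperSet B →
      fkP ends β A * fkP ends β B ≤ fkP ends β (A ∩ B)

/-- TWN: nonnegativity. -/
def ST_TWN : Prop :=
  ∀ (V : Type) [Fintype V] [DecidableEq V] (E : Type) [Fintype E] [DecidableEq E]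
    (ends : E → Sym2 V) (β : ℝ) (T : Finset E) (x y : V), 0 ≤ β → 0 ≤ tw ends β T (two x y)

/-- TWS: sum of the trace weights over the traces which avoid `F`. -/
def ST_TWS : Prop :=
  ∀ (V : Type) [Fintype V] [DecidableEq V] (E : Type) [Fintype E] [DecidableEq E]
    (ends : E → Sym2 V) (β : ℝ) (F : Finset E) (f : (V → ℤˣ) → ℝ),
    ∑ T : Finset E, (ef F).indicator (fun T => tw ends β T f) T = Zs ends β F f

/-- SWI: the switching lemma. -/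
def ST_SWI : Prop :=
  ∀ (V : Type) [Fintype V] [DecidableEq V] (E : Type) [Fintype E] [DecidableEq E]
    (ends : E → Sym2 V) (β : ℝ) (F : Finset E) (f g : (V → ℤˣ) → ℝ) (u v : V)
    (ψ : Finset E → ℝ), (∀ T, ψ T ≠ 0 → Conn ends ((T \ F : Finset E) : Set E) u v) →
      PP ends β f g (fun T₁ T₂ => (ef F).indicator (fun _ => ψ (T₁ ∪ T₂)) T₁) =
      PP ends β (fun σ => f σ * two u v σ) (fun σ => g σ * two u v σ)
        (fun T₁ T₂ => (ef F).indicator (fun _ => ψ (T₁ ∪ T₂)) T₁)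

/-- SRC: the source constraint. -/
def ST_SRC : Prop :=
  ∀ (V : Type) [Fintype V] [DecidableEq V] (E : Type) [Fintype E] [DecidableEq E]
    (ends : E → Sym2 V) (β : ℝ) (T : Finset E) (x y : V),
    tw ends β T (two x y) ≠ 0 → Conn ends (T : Set E) x y

/-- FKS: FK-Ising and spins. -/
def ST_FKS : Prop :=
  ∀ (V : Type) [Fintype V] [DecidableEq V] (E : Type) [Fintype E] [DecidableEq E]
    (ends : E → Sym2 V) (β : ℝ) (F : Finset E) (x y : V), 0 ≤ β →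
    ∑ T : Finset E, (ef F ∩ cn ends x y).indicator (fkw ends β) T =
      Real.exp (β * (Finset.univ \ F).card) * Zs ends β F (two x y)

/-- The indicator of `u ↔ v` in `T₁ ∪ T₂`. -/
noncomputable def kap {V E : Type} [DecidableEq E] (ends : E → Sym2 V) (u v : V)
    (T₁ T₂ : Finset E) : ℝ := (cn ends u v).indicator (fun _ => (1 : ℝ)) (T₁ ∪ T₂)

/-- EXPL: exploration of the cluster of `v`. -/
def ST_EXPL : Prop :=
  ∀ (V : Type) [Fintype V] [DecidableEq V] (E : Type) [Fintype E] [DecidableEq E]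
    (ends : E → Sym2 V) (β : ℝ) (o u y v : V), 0 ≤ β →
    PP ends β (two o u) (two u y) (kap ends u v) * Zs ends β ∅ (fun _ => 1) ≤
      PP ends β (two o u) (fun _ => 1) (kap ends u v) * Zs ends β ∅ (two u y) +
      PP ends β (fun _ => 1) (two u y) (kap ends u v) * Zs ends β ∅ (two o u)

/-- FIN: the finite comparison inequality. -/
def ST_FIN : Prop :=
  ∀ (V : Type) [Fintype V] [DecidableEq V] (E : Type) [Fintype E] [DecidableEq E]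
    (ends : E → Sym2 V) (β : ℝ) (F : Finset E) (o y : V) (w : V → ℝ) (D : ℝ)
    (c a : V → V → ℝ), 0 ≤ β →
    (∀ x z, c x z = fkP ends β (cn ends x z)) →
    (∀ x z, a x z = fkP ends β (ef F ∩ cn ends x z)) →
    (∀ u, 0 ≤ w u) → ∑ u, w u = 1 → 0 < c o y →
    (∀ u, w u ≠ 0 → 0 < c o u ∧ 0 < c u y) →
    (∀ u, w u ≠ 0 →
      ∑ z, {z | IsEnd ends F z}.indicator (fun z => c u z * c z y) z ≤ D * c u y) →
    |a o y / c o y - ∑ u, w u * (a o u / c o u)| ≤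
      Real.sqrt (∑ u, ∑ v, w u * w v *
        (c o y * c u v * (1 / (c o u * c v y) + 1 / (c o v * c u y))) - 1) + D

/-- SIMF: Simon's inequality. -/
def ST_SIMF : Prop :=
  ∀ (V : Type) [Fintype V] [DecidableEq V] (E : Type) [Fintype E] [DecidableEq E]
    (ends : E → Sym2 V) (β : ℝ) (o y : V) (B : Finset V), 0 ≤ β →
    (∀ T : Finset E, Conn ends (T : Set E) o y → ∃ z ∈ B, Conn ends (T : Set E) o z) →
    fkP ends β (cn ends o y) ≤ ∑ z ∈ B, fkP ends β (cn ends o z) * fkP ends β (cn ends z y)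

/-- MMSA: the inequality of Messager and Miracle-Solé. -/
def ST_MMSA : Prop :=
  ∀ (V : Type) [Fintype V] [DecidableEq V] (E : Type) [Fintype E] [DecidableEq E]
    (ends : E → Sym2 V) (β : ℝ) (θ : V → V) (θE : E → E) (P : Set V), 0 ≤ β →
    (∀ v, θ (θ v) = v) → (∀ e, θE (θE e) = e) → (∀ e, ends (θE e) = Sym2.map θ (ends e)) →
    (∀ v, v ∈ P ∨ θ v ∈ P) → (∀ v ∈ P, θ v ∈ P → θ v = v) →
    (∀ e, (∀ v ∈ ends e, v ∈ P) ∨ (∀ v ∈ ends e, θ v ∈ P) ∨ ∃ v, ends e = s(v, θ v)) →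
    ∀ x ∈ P, ∀ y ∈ P, fkP ends β (cn ends x (θ y)) ≤ fkP ends β (cn ends x y)

/-! ## The lattice in finite volume -/

/-- LATC: connectedness of the lattice and of the complements of finite sets. -/
def ST_LATC : Prop :=
  ∀ d : ℕ, 2 ≤ d →
    (∀ x y : Fin d → ℤ, LConn (fun _ : Ed d => true) x y) ∧
    (∀ Λ T : Finset (Ed d), ∃ n : ℕ, ∀ x y : Fin d → ℤ, n ≤ nrm x → n ≤ nrm y →
      LConn (exw Λ T) x y) ∧
    ∀ (Λ T : Finset (Ed d)) (x y : Fin d → ℤ), Infin (exw Λ T) x → Infin (exw Λ T) y →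
      LConn (exw Λ T) x y

/-- BR: the wired measure on `Λ` is the FK-Ising measure on the quotient graph. -/
def ST_BR : Prop :=
  ∀ (d : ℕ) (Λ : Finset (Ed d)), Finite (QV Λ) ∧
    (∀ (T : Finset {e // e ∈ Λ}) (x y : Fin d → ℤ),
      Conn (qe Λ) (T : Set {e // e ∈ Λ}) (qm Λ x) (qm Λ y) ↔ LConn (exw Λ (qs T)) x y) ∧
    ∀ (β : ℝ) (A : Set (Cfg d)), PW β Λ A = fkP (qe Λ) β {T | exw Λ (qs T) ∈ A}

/-- FKG: the FKG inequality. -/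
def ST_FKG : Prop :=
  ∀ (d : ℕ) (β : ℝ), 0 ≤ β → ∀ (Λ : Finset (Ed d)) (A B : Set (Cfg d)), IsUpperSet A →
    IsUpperSet B → PW β Λ A * PW β Λ B ≤ PW β Λ (A ∩ B)

/-- MON: monotonicity in the volume. -/
def ST_MON : Prop :=
  ∀ (d : ℕ) (β : ℝ), 0 ≤ β → ∀ (Λ Λ' : Finset (Ed d)), Λ ⊆ Λ' → ∀ A : Set (Cfg d),
    IsUpperSet A → PW β Λ' A ≤ PW β Λ A

/-- BMON: monotonicity in `β`. -/
def ST_BMON : Prop :=
  ∀ (d : ℕ) (β β' : ℝ), 0 ≤ β → β ≤ β' → ∀ (Λ : Finset (Ed d)) (A : Set (Cfg d)),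
    IsUpperSet A → PW β Λ A ≤ PW β' Λ A

/-- CONT: continuity in `β`, and trivial properties of `PW`. -/
def ST_CONT : Prop :=
  ∀ (d : ℕ) (Λ : Finset (Ed d)),
    (∀ A : Set (Cfg d), ContinuousOn (fun β => PW β Λ A) (Ici 0)) ∧
    ∀ β : ℝ, 0 ≤ β → (PW β Λ Set.univ = 1 ∧ PW β Λ ∅ = 0 ∧
      (∀ A B : Set (Cfg d), A ⊆ B → PW β Λ A ≤ PW β Λ B) ∧
      (∀ A B : Set (Cfg d), Disjoint A B → PW β Λ (A ∪ B) = PW β Λ A + PW β Λ B) ∧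
      (∀ A B : Set (Cfg d), (∀ T ⊆ Λ, (exw Λ T ∈ A ↔ exw Λ T ∈ B)) → PW β Λ A = PW β Λ B))

/-- DOM: decoupling. -/
def ST_DOM : Prop :=
  ∀ (d : ℕ) (β : ℝ), 0 ≤ β → ∀ (Λ₁ Λ₂ Λ : Finset (Ed d)), Disjoint Λ₁ Λ₂ → Λ₁ ⊆ Λ → Λ₂ ⊆ Λ →
    ∀ A B : Set (Cfg d), IsUpperSet A → IsUpperSet B → PW β Λ (A ∩ B) ≤ PW β Λ₁ A * PW β Λ₂ B

/-- INV: invariance under the automorphisms of the lattice. -/
def ST_INV : Prop :=
  ∀ (d : ℕ) (g : lat d ≃g lat d),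
    (∀ (β : ℝ) (Λ : Finset (Ed d)) (A : Set (Cfg d)),
      PW β Λ (pb g ⁻¹' A) = PW β (Λ.map g.symm.mapEdgeSet.toEmbedding) A) ∧
    (∀ x y : Fin d → ℤ, pb g ⁻¹' CN x y = CN (g x) (g y)) ∧
    (∀ x : Fin d → ℤ, pb g ⁻¹' IN x = IN (g x)) ∧
    (∀ (β : ℝ) (A : Set (Cfg d)), mW β (pb g ⁻¹' A) = mW β A)

/-- UPS: increasing events. -/
def ST_UPS : Prop :=
  ∀ (d : ℕ) (x y : Fin d → ℤ) (K : Finset (Ed d)),
    IsUpperSet (CN x y) ∧ IsUpperSet (IN x) ∧ IsUpperSet (UF K)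

/-- FINL: the comparison inequality in finite volume. -/
def ST_FINL : Prop :=
  ∀ (d : ℕ), 2 ≤ d → ∀ β : ℝ, 0 ≤ β → ∀ (Λ F : Finset (Ed d)), F ⊆ Λ → ∀ (o y : Fin d → ℤ)
    (W : Finset (Fin d → ℤ)) (w : (Fin d → ℤ) → ℝ) (D : ℝ)
    (c a : (Fin d → ℤ) → (Fin d → ℤ) → ℝ),
    (∀ x z, c x z = PW β Λ (CN x z)) → (∀ x z, a x z = PW β Λ (EF F ∩ CN x z)) →
    (∀ u ∈ W, 0 ≤ w u) → ∑ u ∈ W, w u = 1 → 0 < c o y →
    (∀ u ∈ W, 0 < c o u ∧ 0 < c u y) →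
    (∀ u ∈ W, ∑ z ∈ vts F, c u z * c z y ≤ D * c u y) →
    |a o y / c o y - ∑ u ∈ W, w u * (a o u / c o u)| ≤
      Real.sqrt (∑ u ∈ W, ∑ v ∈ W, w u * w v *
        (c o y * c u v * (1 / (c o u * c v y) + 1 / (c o v * c u y))) - 1) + D

/-- SIML: Simon's inequality in finite volume. -/
def ST_SIML : Prop :=
  ∀ (d : ℕ) (β : ℝ), 0 ≤ β → ∀ (Λ : Finset (Ed d)) (o y : Fin d → ℤ) (B : Finset (Fin d → ℤ)),
    (∀ ω : Cfg d, LConn ω o y → ∃ z ∈ B, LConn ω o z) →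
    PW β Λ (CN o y) ≤ ∑ z ∈ B, PW β Λ (CN o z) * PW β Λ (CN z y)

/-! ## Infinite volume limits -/

/-- LIM: limits of the probabilities. -/
def ST_LIM : Prop :=
  ∀ (d : ℕ) (β : ℝ), 0 ≤ β →
    (∀ A : Set (Cfg d), IsUpperSet A →
      Tendsto (fun Λ : Finset (Ed d) => PW β Λ A) atTop (𝓝 (mW β A)) ∧
      Tendsto (fun b => mW b A) (𝓝[>] β) (𝓝 (mW β A)) ∧ lW β A = mW β A ∧
      ∀ Λ : Finset (Ed d), mW β A ≤ PW β Λ A) ∧
    ∀ C B : Set (Cfg d), IsCyl C → IsUpperSet B →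
      Tendsto (fun Λ : Finset (Ed d) => PW β Λ (C ∩ B)) atTop (𝓝 (lW β (C ∩ B))) ∧
      Tendsto (fun b => lW b (C ∩ B)) (𝓝[>] β) (𝓝 (lW β (C ∩ B)))

/-- Properties of the two point function. -/
structure TwoAPI (d : ℕ) (S : (Fin d → ℤ) → ℝ) : Prop where
  zero : S 0 = 1
  nonneg : ∀ x, 0 ≤ S x
  le_one : ∀ x, S x ≤ 1
  neg : ∀ x, S (-x) = S x
  perm : ∀ (π : Equiv.Perm (Fin d)) (x), S (fun i => x (π i)) = S x
  flip : ∀ (i : Fin d) (x), S (Function.update x i (-(x i))) = S x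
  mms1 : ∀ (i : Fin d) (x), 1 ≤ x i → S x ≤ S (x - Pi.single i 1)
  mms2 : ∀ (i j : Fin d) (x), i ≠ j → x j + 1 ≤ x i →
    S x ≤ S (x - Pi.single i 1 + Pi.single j 1)
  mul_le : ∀ x y, S x * S y ≤ S (x + y)

/-- TWB: basic properties of the two point function. -/
def ST_TWB : Prop :=
  ∀ (d : ℕ), 2 ≤ d → ∀ β : ℝ, 0 ≤ β →
    (S2 β (0 : Fin d → ℤ) = 1 ∧ (∀ x : Fin d → ℤ, 0 ≤ S2 β x) ∧ (∀ x : Fin d → ℤ, S2 β x ≤ 1) ∧
      (∀ x : Fin d → ℤ, S2 β (-x) = S2 β x) ∧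
      (∀ (π : Equiv.Perm (Fin d)) (x), S2 β (fun i => x (π i)) = S2 β x) ∧
      (∀ (i : Fin d) (x), S2 β (Function.update x i (-(x i))) = S2 β x) ∧
      (∀ x y : Fin d → ℤ, S2 β x * S2 β y ≤ S2 β (x + y))) ∧
    (∀ x y : Fin d → ℤ, mW β (CN x y) = S2 β (y - x)) ∧
    (∀ x : Fin d → ℤ, mW β (IN x) = th d β) ∧
    (0 < β → ∀ x : Fin d → ℤ, 0 < S2 β x) ∧ (β = 0 → ∀ x : Fin d → ℤ, x ≠ 0 → S2 β x = 0)

/-- MM1: monotonicity along the axes. -/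
def ST_MM1 : Prop :=
  ∀ (d : ℕ), 2 ≤ d → ∀ β : ℝ, 0 ≤ β → ∀ (i : Fin d) (x : Fin d → ℤ), 1 ≤ x i →
    S2 β x ≤ S2 β (x - Pi.single i 1)

/-- MM2: monotonicity along the diagonals. -/
def ST_MM2 : Prop :=
  ∀ (d : ℕ), 2 ≤ d → ∀ β : ℝ, 0 ≤ β → ∀ (i j : Fin d) (x : Fin d → ℤ), i ≠ j → x j + 1 ≤ x i →
    S2 β x ≤ S2 β (x - Pi.single i 1 + Pi.single j 1)

/-- TWO: properties of the two point function of the wired measure. -/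
def ST_TWO : Prop :=
  ∀ (d : ℕ), 2 ≤ d → ∀ β : ℝ, 0 ≤ β → TwoAPI d (S2 β) ∧
    (∀ x y : Fin d → ℤ, mW β (CN x y) = S2 β (y - x)) ∧
    (∀ x : Fin d → ℤ, mW β (IN x) = th d β) ∧
    (0 < β → ∀ x : Fin d → ℤ, 0 < S2 β x) ∧ (β = 0 → ∀ x : Fin d → ℤ, x ≠ 0 → S2 β x = 0)

/-- SIMN: consequence of Simon's inequality. -/
def ST_SIMN : Prop :=
  ∀ (d : ℕ), 2 ≤ d → ∀ β : ℝ, 0 ≤ β → 0 < th d β → ∀ n : ℕ, 1 ≤ n →
    1 ≤ ∑ y ∈ sph d n, S2 β y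

/-- DEC: decay of the two point function if there is no infinite cluster. -/
def ST_DEC : Prop :=
  ∀ (d : ℕ), 2 ≤ d → ∀ β : ℝ, 0 ≤ β → th d β = 0 →
    Tendsto (fun x : Fin d → ℤ => S2 β x) cofinite (𝓝 0)

/-- CMPX: the comparison inequality for a far source `x`. -/
def ST_CMPX : Prop :=
  ∀ (d : ℕ), 2 ≤ d → ∀ β : ℝ, 0 < β → ∀ (F : Finset (Ed d)) (x : Fin d → ℤ)
    (W : Finset (Fin d → ℤ)) (w : (Fin d → ℤ) → ℝ) (D : ℝ), (∀ u ∈ W, 0 ≤ w u) →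
    ∑ u ∈ W, w u = 1 →
    (∀ u ∈ W, ∑ z ∈ vts F, S2 β (u - z) * S2 β (x - z) ≤ D * S2 β (x - u)) →
    |lW β (EF F ∩ CN 0 x) / S2 β x - ∑ u ∈ W, w u * (lW β (EF F ∩ CN 0 u) / S2 β u)| ≤
      Real.sqrt (∑ u ∈ W, ∑ v ∈ W, w u * w v * (S2 β x * S2 β (u - v) *
        (1 / (S2 β u * S2 β (x - v)) + 1 / (S2 β v * S2 β (x - u)))) - 1) + D

/-- CMPI: the comparison inequality for the source at infinity. -/
def ST_CMPI : Prop :=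
  ∀ (d : ℕ), 2 ≤ d → ∀ β : ℝ, 0 < β → 0 < th d β → ∀ (F : Finset (Ed d))
    (W : Finset (Fin d → ℤ)) (w : (Fin d → ℤ) → ℝ) (D : ℝ), (∀ u ∈ W, 0 ≤ w u) →
    ∑ u ∈ W, w u = 1 → (∀ u ∈ W, ∑ z ∈ vts F, S2 β (u - z) ≤ D) →
    |lW β (EF F ∩ IN 0) / th d β - ∑ u ∈ W, w u * (lW β (EF F ∩ CN 0 u) / S2 β u)| ≤
      Real.sqrt (∑ u ∈ W, ∑ v ∈ W, w u * w v * (S2 β (u - v) *
        (1 / S2 β u + 1 / S2 β v)) - 1) + D

/-- The cone around the first half axis. -/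
def Cone {d : ℕ} (i₀ : Fin d) (u : Fin d → ℤ) : Prop :=
  (∀ j, j ≠ i₀ → 0 ≤ u j) ∧ ∑ j ∈ Finset.univ.erase i₀, u j ≤ u i₀

/-- WEX: existence of good weights. -/
def ST_WEX : Prop :=
  ∀ (d : ℕ), 2 ≤ d → ∀ (i₀ : Fin d) (S : (Fin d → ℤ) → ℝ), TwoAPI d S → (∀ x, 0 < S x) →
    Tendsto S cofinite (𝓝 0) → (∀ n : ℕ, 1 ≤ n → 1 ≤ ∑ y ∈ sph d n, S y) →
    ∀ ε : ℝ, 0 < ε → ∀ R : ℕ, ∃ (W : Finset (Fin d → ℤ)) (w : (Fin d → ℤ) → ℝ),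
      (∀ u ∈ W, 0 ≤ w u) ∧ ∑ u ∈ W, w u = 1 ∧ (∀ u ∈ W, R ≤ nrm u ∧ Cone i₀ u) ∧
      ∑ u ∈ W, ∑ v ∈ W, w u * w v * (S (u - v) * (1 / S u + 1 / S v)) ≤ 1 + ε

/-- The part of the cone between the heights `R` and `n`. -/
noncomputable def Rg {d : ℕ} (i₀ : Fin d) (R n : ℕ) : Finset (Fin d → ℤ) := by
  classical
  exact (Finset.Icc (fun _ => -(n : ℤ)) (fun _ => (n : ℤ))).filter
    fun v => Cone i₀ v ∧ (R : ℤ) ≤ v i₀

/-- WA: monotonicity of the two point function. -/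
def ST_WA : Prop :=
  ∀ (d : ℕ), 2 ≤ d → ∀ (i₀ : Fin d) (S : (Fin d → ℤ) → ℝ), TwoAPI d S →
    (∀ x : Fin d → ℤ, S x ≤ S (Pi.single i₀ (nrm x : ℤ))) ∧
    (∀ k : ℕ, S (Pi.single i₀ ((k : ℤ) + 1)) ≤ S (Pi.single i₀ (k : ℤ))) ∧
    (∀ v : Fin d → ℤ, Cone i₀ v → S (Pi.single i₀ (∑ i, v i)) ≤ S v) ∧
    (∀ v : Fin d → ℤ, Cone i₀ v → S (Pi.single i₀ (2 * v i₀)) ≤ S v) ∧
    (∀ v : Fin d → ℤ, Cone i₀ v → ∀ x : Fin d → ℤ, (∀ j, 0 ≤ x j) → 2 * v i₀ + 1 ≤ x i₀ →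
      S x ≤ S (x - v)) ∧
    (∀ v : Fin d → ℤ, Cone i₀ v → (nrm v : ℤ) = v i₀)

/-- WR: sums over the cone. -/
def ST_WR : Prop :=
  ∀ (d : ℕ), 2 ≤ d → ∀ (i₀ : Fin d) (S : (Fin d → ℤ) → ℝ), TwoAPI d S → (∀ x, 0 < S x) →
    (∀ n : ℕ, 1 ≤ n → 1 ≤ ∑ y ∈ sph d n, S y) → ∀ R : ℕ, 1 ≤ R →
      Tendsto (fun n => ∑ v ∈ Rg i₀ R n, S v) atTop atTop ∧
      (∃ C : ℝ, ∀ᶠ n in atTop, ∀ u ∈ Rg i₀ R n,
        ∑ v ∈ Rg i₀ R n, S (v - u) ≤ C * ∑ v ∈ Rg i₀ R n, S v) ∧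
      ∀ u : Fin d → ℤ, Cone i₀ u → ∀ δ : ℝ, 0 < δ → ∀ᶠ n in atTop,
        ∑ v ∈ Rg i₀ R n, S (v - u) ≤ (1 + δ) * ∑ v ∈ Rg i₀ R n, S v

/-- WD: abstract construction of the weights. -/
def ST_WD : Prop :=
  ∀ (d : ℕ) (S : (Fin d → ℤ) → ℝ) (G : ℕ → Finset (Fin d → ℤ)) (C : ℝ), (∀ x, 0 < S x) →
    (∀ x, S (-x) = S x) → Tendsto S cofinite (𝓝 0) →
    Tendsto (fun n => ∑ v ∈ G n, S v) atTop atTop →
    (∀ᶠ n in atTop, ∀ u ∈ G n, ∑ v ∈ G n, S (v - u) ≤ C * ∑ v ∈ G n, S v) →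
    (∀ n, ∀ u ∈ G n, ∀ δ : ℝ, 0 < δ → ∀ᶠ m in atTop,
      ∑ v ∈ G m, S (v - u) ≤ (1 + δ) * ∑ v ∈ G m, S v) →
    ∀ ε : ℝ, 0 < ε → ∃ (W : Finset (Fin d → ℤ)) (w : (Fin d → ℤ) → ℝ),
      (∀ u ∈ W, 0 ≤ w u) ∧ ∑ u ∈ W, w u = 1 ∧ (∀ u ∈ W, ∃ n, u ∈ G n) ∧
      ∑ u ∈ W, ∑ v ∈ W, w u * w v * (S (u - v) * (1 / S u + 1 / S v)) ≤ 1 + ε

/-- The conclusion of the comparison. -/
def Cmp (d : ℕ) (βc : ℝ) : Prop :=
  ∀ (F : Finset (Ed d)) (ε : ℝ), 0 < ε → ∃ (R : ℕ) (b : ℝ), βc < b ∧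
    ∀ x : Fin d → ℤ, R ≤ nrm x → ∀ β, βc < β → β < b →
      |lW β (EF F ∩ IN 0) / th d β - lW βc (EF F ∩ CN 0 x) / S2 βc x| ≤ ε

/-- CS0: the case without infinite cluster at `βc`. -/
def ST_CS0 : Prop :=
  ∀ (d : ℕ), 2 ≤ d → ∀ βc : ℝ, 0 < βc → (∀ β, βc < β → 0 < th d β) → th d βc = 0 → Cmp d βc

/-- CS1: the case with an infinite cluster at `βc`. -/
def ST_CS1 : Prop :=
  ∀ (d : ℕ), 2 ≤ d → ∀ βc : ℝ, 0 < βc → 0 < th d βc → Cmp d βc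

/-! ## Measures -/

/-- GEN: existence and uniqueness of the infinite volume measure. -/
def ST_GEN : Prop :=
  ∀ (d : ℕ) (β : ℝ), 0 ≤ β → (∃ μ : Measure (Cfg d), IsFK β μ) ∧
    ∀ μ ν : Measure (Cfg d), IsFK β μ → IsFK β ν → μ = ν

/-- MEAS: measurability. -/
def ST_MEAS : Prop :=
  ∀ (d : ℕ), (∀ A : Set (Cfg d), IsCyl A → MeasurableSet A) ∧
    (∀ x y : Fin d → ℤ, MeasurableSet (CN x y)) ∧ (∀ x : Fin d → ℤ, MeasurableSet (IN x)) ∧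
    (∀ v : Fin d → ℤ, MeasurableSet {ω : Cfg d | Tri v ω}) ∧
    (∀ v : Fin d → ℤ, Measurable (clo v)) ∧ ∀ g : lat d ≃g lat d, Measurable (pb g)

/-- LIMI: infinite clusters in infinite volume. -/
def ST_LIMI : Prop :=
  ∀ (d : ℕ), 2 ≤ d → ∀ β : ℝ, 0 ≤ β → ∀ μ : Measure (Cfg d), IsFK β μ →
    ∀ (K : Finset (Ed d)) (x : Fin d → ℤ), μ.real (UF K ∩ IN x) = mW β (UF K ∩ IN x)

/-- LIMC: connections in infinite volume. -/
def ST_LIMC : Prop :=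
  ∀ (d : ℕ), 2 ≤ d → ∀ β : ℝ, 0 ≤ β → ∀ μ : Measure (Cfg d), IsFK β μ →
    (∀ x y : Fin d → ℤ, μ (IN x ∩ IN y ∩ (CN x y)ᶜ) = 0) →
    ∀ (K : Finset (Ed d)) (x y : Fin d → ℤ), μ.real (UF K ∩ CN x y) = mW β (UF K ∩ CN x y)

/-- TRI: there are few trifurcations. -/
def ST_TRI : Prop :=
  ∀ (d : ℕ), 2 ≤ d → ∀ (ω : Cfg d) (n : ℕ) (M : Finset (Fin d → ℤ)),
    (∀ v ∈ M, nrm v ≤ n ∧ Tri v ω) → M.card ≤ (sph d (n + 1)).card

/-- TRM: invariance of the measure. -/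
def ST_TRM : Prop :=
  ∀ (d : ℕ) (β : ℝ), 0 ≤ β → ∀ μ : Measure (Cfg d), IsFK β μ → ∀ g : lat d ≃g lat d,
    Measure.map (pb g) μ = μ

/-- FE: finite energy. -/
def ST_FE : Prop :=
  ∀ (d : ℕ) (β : ℝ), 0 < β → ∀ μ : Measure (Cfg d), IsFK β μ → ∀ B : Finset (Ed d),
    ∃ c : ℝ, 0 < c ∧ ∀ A : Set (Cfg d), MeasurableSet A →
      (∀ ω ω' : Cfg d, (∀ e ∉ B, ω e = ω' e) → (ω ∈ A ↔ ω' ∈ A)) →
      ∀ η : Cfg d, c * μ.real A ≤ μ.real (A ∩ {ω | ∀ e ∈ B, ω e = η e})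

/-- There are at least three infinite clusters. -/
def Three {d : ℕ} (ω : Cfg d) : Prop :=
  ∃ a : Fin 3 → (Fin d → ℤ), (∀ i, Infin ω (a i)) ∧ ∀ i j, i ≠ j → ¬ LConn ω (a i) (a j)

/-- There are at least two infinite clusters. -/
def TwoInf {d : ℕ} (ω : Cfg d) : Prop := ∃ x y : Fin d → ℤ, Infin ω x ∧ Infin ω y ∧ ¬ LConn ω x y

/-- BK3: three infinite clusters give a trifurcation. -/
def ST_BK3 : Prop :=
  ∀ (d : ℕ), 2 ≤ d → ∀ β : ℝ, 0 < β → ∀ μ : Measure (Cfg d), IsFK β μ →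
    μ {ω | Three ω} ≠ 0 → ∃ v : Fin d → ℤ, μ {ω | Tri v ω} ≠ 0

/-- ERG: translation invariant events are trivial. -/
def ST_ERG : Prop :=
  ∀ (d : ℕ), 1 ≤ d → ∀ β : ℝ, 0 ≤ β → ∀ μ : Measure (Cfg d), IsFK β μ →
    ∀ A : Set (Cfg d), MeasurableSet A → (∀ g : lat d ≃g lat d, pb g ⁻¹' A = A) →
      μ A = 0 ∨ μ A = 1

/-- BK: uniqueness of the infinite cluster. -/
def ST_BK : Prop :=
  ∀ (d : ℕ), 2 ≤ d → ∀ β : ℝ, 0 ≤ β → ∀ μ : Measure (Cfg d), IsFK β μ →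
    ∀ x y : Fin d → ℤ, μ (IN x ∩ IN y ∩ (CN x y)ᶜ) = 0

/-! ## Peierls -/

/-- PE1: the probability that all the edges of `K` are closed. -/
def ST_PE1 : Prop :=
  ∀ (d : ℕ) (β : ℝ), 0 < β → ∀ Λ K : Finset (Ed d), K ⊆ Λ →
    PW β Λ (EF K) ≤ (2 / (Real.exp (2 * β) - 1)) ^ K.card

/-- PE2: if the origin is not in the infinite cluster there is a long path of closed edges. -/
def ST_PE2 : Prop :=
  ∀ (d : ℕ), 2 ≤ d → ∀ (i₀ : Fin d) (Λ T : Finset (Ed d)), T ⊆ Λ → exw Λ T ∉ IN 0 →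
    ∃ (n : ℕ) (p : ℕ → Ed d) (L : ℕ), L ≤ n + 1 ∧
      le (p 0) = s(Pi.single i₀ (L : ℤ), Pi.single i₀ ((L : ℤ) + 1)) ∧
      (∀ k < n, Plq (p k) (p (k + 1))) ∧ (∀ k ≤ n, exw Λ T (p k) = false) ∧
      Set.InjOn p (Set.Iic n)

/-- PEI: there is an infinite cluster for large `β`. -/
def ST_PEI : Prop := ∀ (d : ℕ), 2 ≤ d → ∃ β : ℝ, 0 < β ∧ 0 < th d β

/-! ## The final statement -/

/-- The edges with both endpoints in `V`. -/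
noncomputable def inE {d : ℕ} (V : Finset (Fin d → ℤ)) : Finset (Ed d) := by
  classical exact (V.sym2.subtype (fun e => e ∈ (lat d).edgeSet))

/-- The number of connected components of `(ℤ^d, ω ∨ ξ)` that meet `V`, where `ω` is the
configuration on the edges inside `V` whose open edges are those of `T`. -/
noncomputable def kbc {d : ℕ} (ξ : Cfg d) (V : Finset (Fin d → ℤ)) (T : Finset (Ed d)) : ℕ :=
  Set.ncard {C : Set (Fin d → ℤ) | ∃ x ∈ V, C = {y | LConn (ext ξ (inE V) T) x y}}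

/-- The FK-Ising measure on the subgraph induced by `V` with boundary condition `ξ`. -/
noncomputable def fkBC {d : ℕ} (ξ : Cfg d) (β : ℝ) (V : Finset (Fin d → ℤ)) (A : Set (Cfg d)) :
    ℝ :=
  (∑ T ∈ (inE V).powerset,
      A.indicator (fun _ => (Real.exp (2 * β) - 1) ^ T.card * 2 ^ kbc ξ V T) (ext ξ (inE V) T)) /
    ∑ T ∈ (inE V).powerset, (Real.exp (2 * β) - 1) ^ T.card * 2 ^ kbc ξ V T

/-- `φ β` is the infinite volume FK-Ising measure (weak limit of the wired measures on the finite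
subgraphs). -/
def IsFKIsing (d : ℕ) (φ : ℝ → Measure (Cfg d)) : Prop :=
  ∀ β : ℝ, 0 ≤ β → IsProbabilityMeasure (φ β) ∧
    ∀ A : Set (Cfg d), IsCyl A →
      Tendsto (fun V : Finset (Fin d → ℤ) => fkBC (fun _ => true) β V A) atTop
        (𝓝 ((φ β).real A))

/-- The critical parameter. -/
noncomputable def betac {d : ℕ} (φ : ℝ → Measure (Cfg d)) : ℝ :=
  sInf {β : ℝ | 0 ≤ β ∧ 0 < (φ β).real (IN 0)}

/-- KBC: the two descriptions of the wired measure agree. -/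
def ST_KBC : Prop :=
  ∀ (d : ℕ) (β : ℝ) (V : Finset (Fin d → ℤ)), V.Nonempty → ∀ A : Set (Cfg d),
    fkBC (fun _ => true) β V A = PW β (inE V) A

/-- The final statement: both constructions of the incipient infinite cluster exist and agree. -/
def FINAL : Prop :=
  ∀ d : ℕ, 2 ≤ d → (∃ φ : ℝ → Measure (Cfg d), IsFKIsing d φ) ∧
    ∀ φ : ℝ → Measure (Cfg d), IsFKIsing d φ →
      0 < betac φ ∧ (∀ β, betac φ < β → 0 < (φ β).real (IN 0)) ∧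
      (∀ β, 0 ≤ β → β < betac φ → (φ β).real (IN 0) = 0) ∧
      ∃ φinf : Measure (Cfg d), IsProbabilityMeasure φinf ∧ ∀ E : Set (Cfg d), IsCyl E →
        Tendsto (fun x : Fin d → ℤ => (φ (betac φ)).real (E ∩ CN 0 x) /
          (φ (betac φ)).real (CN 0 x)) cofinite (𝓝 (φinf.real E)) ∧
        Tendsto (fun β => (φ β).real (E ∩ IN 0) / (φ β).real (IN 0)) (𝓝[>] (betac φ))
          (𝓝 (φinf.real E))

/-- LIN: from the events `EF F` to all the cylinder events. -/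
def ST_LIN : Prop :=
  ∀ (d : ℕ) (A : Set (Cfg d)), IsCyl A → ∃ (s : Finset (Finset (Ed d))) (c : Finset (Ed d) → ℝ),
    ∀ (μ : Measure (Cfg d)) [IsFiniteMeasure μ] (B : Set (Cfg d)), MeasurableSet B →
      μ.real (A ∩ B) = ∑ F ∈ s, c F * μ.real (EF F ∩ B)

/-- CPT: a probability measure with given limits on the cylinder events. -/
def ST_CPT : Prop :=
  ∀ (d : ℕ) (ι : Type) (l : Filter ι), l.NeBot → ∀ (μ : ι → Measure (Cfg d)),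
    (∀ i, IsProbabilityMeasure (μ i)) →
    (∀ A : Set (Cfg d), IsCyl A → ∃ L : ℝ, Tendsto (fun i => (μ i).real A) l (𝓝 L)) →
    ∃ ν : Measure (Cfg d), IsProbabilityMeasure ν ∧
      ∀ A : Set (Cfg d), IsCyl A → Tendsto (fun i => (μ i).real A) l (𝓝 (ν.real A))

end IIC
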